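import Pool.Agent.H462R2.PiE
import Pool.Agent.H364R2.PiE

/-!
If `π + e` or `π - e` is algebraic (in particular rational), then `e` is a linear form in `1` and
`π`, and the strong six exponentials theorem with Baker's theorem gives much more than is known
about powers of `e`.
-/

set_option autoImplicit false

namespace Pool.Agent.Results.MP_363d4d_nt.AlgebraicSumConsequences

open Pool.Agent.H462R2.PiE Pool.Agent.H301R2.SSE Pool.Agent.H340R2

/-- `e` as a complex number -/
noncomputable abbrev ee : ℂ := ((Real.exp 1 : ℝ) : ℂ)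

/-- `π` as a complex number -/
noncomputable abbrev pp : ℂ := ((Real.pi : ℝ) : ℂ)

theorem e_form {σ : ℝ} (hσ : σ = 1 ∨ σ = -1)
    (h : IsAlgebraic ℚ (Real.pi + σ * Real.exp 1)) :
    ∃ r : ℂ, IsAlgebraic ℚ r ∧ r ≠ 0 ∧ ∃ s : ℂ, IsAlgebraic ℚ s ∧ s ≠ 0 ∧ ee = r + s * pp := by
  have hC : IsAlgebraic ℚ ((Real.pi + σ * Real.exp 1 : ℝ) : ℂ) := alg_ofReal h
  have hne : ((Real.pi + σ * Real.exp 1 : ℝ) : ℂ) ≠ 0 := by
    have h1 : Real.exp 1 < 2.7182818286 := Real.exp_one_lt_d9
    have h2 : (3 : ℝ) < Real.pi := Real.pi_gt_three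
    have h3 : (0 : ℝ) < Real.exp 1 := Real.exp_pos 1
    have : (0 : ℝ) < Real.pi + σ * Real.exp 1 := by
      rcases hσ with rfl | rfl
      · linarith
      · norm_num at h1 ⊢
        linarith
    exact_mod_cast this.ne'
  rcases hσ with rfl | rfl
  · refine ⟨((Real.pi + 1 * Real.exp 1 : ℝ) : ℂ), hC, hne, -1, isAlgebraic_one.neg,
      neg_ne_zero.2 one_ne_zero, ?_⟩
    simp only [ee, pp]
    push_cast
    ring
  · refine ⟨-((Real.pi + -1 * Real.exp 1 : ℝ) : ℂ), hC.neg, neg_ne_zero.2 hne, 1,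
      isAlgebraic_one, one_ne_zero, ?_⟩
    simp only [ee, pp]
    push_cast
    ring

theorem e_mem {r s : ℂ} (hr : IsAlgebraic ℚ r) (hs : IsAlgebraic ℚ s) (h : ee = r + s * pp) :
    ee ∈ Lt := by
  rw [h]
  exact Lt.add_mem (Lt_alg hr) (Lt_mul hs pi_mem)

/-- the basic consequence of the strong six exponentials theorem -/
theorem dep (he : ee ∈ Lt) {x y : ℂ} (hx : x ∈ Lt) (hy : y ∈ Lt) (hex : ee * x ∈ Lt)
    (hey : ee * y ∈ Lt) : ∃ a b c : ℂ, IsAlgebraic ℚ a ∧ IsAlgebraic ℚ b ∧ IsAlgebraic ℚ c ∧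
      ¬ (a = 0 ∧ b = 0 ∧ c = 0) ∧ a + b * x + c * y = 0 := by
  by_contra hcon
  push Not at hcon
  refine strong_six ![1, ee] ![1, x, y] ?_ ?_ ?_
  · intro a c ha hc hac
    exact one_indep (Real.exp 1) LW.transcendental_exp_one a c ha hc hac
  · intro c hc hsum
    rw [Fin.sum_univ_three] at hsum
    simp only [Matrix.cons_val_zero, Matrix.cons_val_one, Matrix.cons_val] at hsum
    by_contra hne
    push Not at hne
    refine hcon (c 0) (c 1) (c 2) (hc 0) (hc 1) (hc 2) ?_ (by linear_combination hsum)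
    intro h0 h1 h2
    obtain ⟨j, hj⟩ := hne
    fin_cases j
    · exact hj h0
    · exact hj h1
    · exact hj h2
  · intro i j
    fin_cases i <;> fin_cases j
    · simpa using Lt_one
    · simpa using hx
    · simpa using hy
    · simpa using he
    · simpa using hex
    · simpa using hey

theorem e_tr : Transcendental ℚ ee := by
  intro h
  exact LW.transcendental_exp_one (alg_ofReal_iff.1 h)

theorem quad_ne (a b c : ℂ) (ha : IsAlgebraic ℚ a) (hb : IsAlgebraic ℚ b) (hc : IsAlgebraic ℚ c)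
    (hne : ¬ (a = 0 ∧ b = 0 ∧ c = 0)) (h : a + b * ee + c * ee ^ 2 = 0) : False := by
  classical
  let A : QB := ⟨a, mem_QB.2 ha⟩
  let B : QB := ⟨b, mem_QB.2 hb⟩
  let G : QB := ⟨c, mem_QB.2 hc⟩
  let P : Polynomial QB := Polynomial.C G * Polynomial.X ^ 2 + Polynomial.C B * Polynomial.X +
    Polynomial.C A
  have hP : P ≠ 0 := by
    intro h0
    apply hne
    have h2 := congrArg (fun Q => Polynomial.coeff Q 2) h0
    have h1 := congrArg (fun Q => Polynomial.coeff Q 1) h0
    have h3 := congrArg (fun Q => Polynomial.coeff Q 0) h0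
    simp only [P, Polynomial.coeff_add, Polynomial.coeff_C_mul, Polynomial.coeff_X_pow,
      Polynomial.coeff_X, Polynomial.coeff_C, Polynomial.coeff_zero] at h1 h2 h3
    norm_num at h1 h2 h3
    exact ⟨congrArg Subtype.val h3, congrArg Subtype.val h1, congrArg Subtype.val h2⟩
  have halg : IsAlgebraic QB ee := by
    refine ⟨P, hP, ?_⟩
    simp only [P, map_add, map_mul, Polynomial.aeval_C, Polynomial.aeval_X, map_pow]
    have hA : algebraMap QB ℂ A = a := rfl
    have hB : algebraMap QB ℂ B = b := rfl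
    have hG : algebraMap QB ℂ G = c := rfl
    rw [hA, hB, hG]
    linear_combination h
  have hQ : Algebra.IsAlgebraic ℚ QB := ⟨fun x => by
    have h1 : IsAlgebraic ℚ (algebraMap QB ℂ x) := mem_QB.1 x.2
    exact (isAlgebraic_algebraMap_iff (algebraMap QB ℂ).injective).1 h1⟩
  exact e_tr (halg.restrictScalars ℚ)

theorem mem_of_exp {β z : ℂ} (hβ : IsAlgebraic ℚ β) (hβ0 : β ≠ 0)
    (h : IsAlgebraic ℚ (Complex.exp (β * z))) : z ∈ Lt := by
  have h2 := Lt_mul hβ.inv (Lt_log h)
  have h3 : β⁻¹ * (β * z) = z := by field_simp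
  rwa [h3] at h2

/-- Suppose that `π + e` or `π - e` is algebraic. Then
(1) `exp (β e + γ π)` is transcendental for all algebraic `β ≠ 0` and `γ`;
(2) if `α` is a positive algebraic number different from `1` and `β ≠ 0` is algebraic, then
`α ^ e` or `exp (β e ^ 2)` is transcendental;
(3) if `β, γ` are nonzero algebraic numbers, then `exp (β e ^ 2)` or `exp (γ e ^ 3)` is
transcendental;
(4) if `l₁, l₂` are logarithms of algebraic numbers, linearly independent over `ℚ`, then
`exp (e l₁)` or `exp (e l₂)` is transcendental. -/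
theorem result (σ : ℝ) (hσ : σ = 1 ∨ σ = -1)
    (h : IsAlgebraic ℚ (Real.pi + σ * Real.exp 1)) :
    (∀ β γ : ℂ, IsAlgebraic ℚ β → IsAlgebraic ℚ γ → β ≠ 0 →
      Transcendental ℚ (Complex.exp (β * (Real.exp 1 : ℂ) + γ * (Real.pi : ℂ)))) ∧
    (∀ (α : ℝ) (β : ℂ), 0 < α → α ≠ 1 → IsAlgebraic ℚ α → IsAlgebraic ℚ β → β ≠ 0 →
      Transcendental ℚ (α ^ Real.exp 1) ∨
        Transcendental ℚ (Complex.exp (β * (Real.exp 1 : ℂ) ^ 2))) ∧
    (∀ β γ : ℂ, IsAlgebraic ℚ β → IsAlgebraic ℚ γ → β ≠ 0 → γ ≠ 0 →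
      Transcendental ℚ (Complex.exp (β * (Real.exp 1 : ℂ) ^ 2)) ∨
        Transcendental ℚ (Complex.exp (γ * (Real.exp 1 : ℂ) ^ 3))) ∧
    (∀ l₁ l₂ : ℂ, IsAlgebraic ℚ (Complex.exp l₁) → IsAlgebraic ℚ (Complex.exp l₂) →
      (∀ a b : ℚ, (a : ℂ) * l₁ + (b : ℂ) * l₂ = 0 → a = 0 ∧ b = 0) →
      Transcendental ℚ (Complex.exp ((Real.exp 1 : ℂ) * l₁)) ∨
        Transcendental ℚ (Complex.exp ((Real.exp 1 : ℂ) * l₂))) := by
  obtain ⟨r, hr, hr0, s, hs, hs0, hform⟩ := e_form hσ h
  have he := e_mem hr hs hform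
  have heC : (Real.exp 1 : ℂ) = ee := rfl
  have hpiLB : pp ∈ LB := by
    have h1 : pp * Complex.I ∈ LB := by
      apply LB_log
      rw [Complex.exp_pi_mul_I]
      exact isAlgebraic_one.neg
    have h2 := LB_mul (a := -Complex.I) LW.isAlgebraic_I.neg h1
    have h3 : -Complex.I * (pp * Complex.I) = pp := by
      have := Complex.I_mul_I
      linear_combination (-pp) * this
    rwa [h3] at h2
  refine ⟨?_, ?_, ?_, ?_⟩
  · intro β γ hβ hγ hβ0 halg
    have h1 : β * ee + γ * pp ∈ LB := LB_log halg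
    have h2 : (β * s + γ) * pp ∈ LB := LB_mul ((hβ.mul hs).add hγ) hpiLB
    have h3 : β * r ∈ LB := by
      have h4 := LB.sub_mem h1 h2
      have h5 : β * ee + γ * pp - (β * s + γ) * pp = β * r := by rw [hform]; ring
      rwa [h5] at h4
    have h6 := LB_alg h3 (hβ.mul hr)
    exact (mul_ne_zero hβ0 hr0) h6
  · intro α β hα hα1 hαa hβ hβ0
    by_contra hcon
    simp only [not_or, Transcendental, not_not] at hcon
    obtain ⟨h1, h2⟩ := hcon
    have hlog : Real.log α ≠ 0 := Real.log_ne_zero_of_pos_of_ne_one hα hα1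
    have hl : IsAlgebraic ℚ (Complex.exp ((Real.log α : ℝ) : ℂ)) := by
      rw [← Complex.ofReal_exp, Real.exp_log hα]
      exact alg_ofReal hαa
    have hel : ee * ((Real.log α : ℝ) : ℂ) ∈ Lt := by
      apply Lt_log
      have h3 : Complex.exp (ee * ((Real.log α : ℝ) : ℂ)) = ((α ^ Real.exp 1 : ℝ) : ℂ) := by
        rw [Real.rpow_def_of_pos hα, Complex.ofReal_exp]
        congr 1
        simp only [ee]
        push_cast
        ring
      rw [h3]
      exact alg_ofReal h1
    have hee : ee * ee ∈ Lt := by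
      have := mem_of_exp hβ hβ0 h2
      rwa [heC, sq] at this
    obtain ⟨a, b, c, ha, hb, hc, hne, hsum⟩ := dep he he (Lt_log hl) hee hel
    have hsum' : (a + b * r) + (b * s) * (Real.pi : ℂ) + c * ((Real.log α : ℝ) : ℂ) = 0 := by
      have h4 : a + b * (r + s * pp) + c * ((Real.log α : ℝ) : ℂ) = 0 := by
        rw [← hform]; exact hsum
      simp only [pp] at h4
      linear_combination h4
    obtain ⟨e1, e2, e3⟩ := Pool.Agent.H364R2.PiE.pair_indep hlog hl (ha.add (hb.mul hr))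
      (hb.mul hs) hc hsum'
    have hb0 : b = 0 := (mul_eq_zero.1 e2).resolve_right hs0
    rw [hb0, zero_mul, add_zero] at e1
    exact hne ⟨e1, hb0, e3⟩
  · intro β γ hβ hγ hβ0 hγ0
    by_contra hcon
    simp only [not_or, Transcendental, not_not] at hcon
    obtain ⟨h1, h2⟩ := hcon
    have h3 : ee ^ 2 ∈ Lt := mem_of_exp hβ hβ0 h1
    have h4 : ee ^ 3 ∈ Lt := mem_of_exp hγ hγ0 h2
    obtain ⟨a, b, c, ha, hb, hc, hne, hsum⟩ := dep he he h3 (by rwa [← sq])
      (by have : ee * ee ^ 2 = ee ^ 3 := by ring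
          rwa [this])
    exact quad_ne a b c ha hb hc hne hsum
  · intro l₁ l₂ h1 h2 hind
    by_contra hcon
    simp only [not_or, Transcendental, not_not] at hcon
    obtain ⟨h3, h4⟩ := hcon
    obtain ⟨a, b, c, ha, hb, hc, hne, hsum⟩ := dep he (Lt_log h1) (Lt_log h2) (Lt_log h3)
      (Lt_log h4)
    have hb2 := Pool.Agent.H297R2.baker_inhom (ι := Fin 2) ![l₁, l₂] (by
        intro i
        fin_cases i
        · exact h1
        · exact h2) (by
        rw [LinearIndependent.pair_iff]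
        intro s t hst
        refine hind s t ?_
        rw [Rat.smul_def, Rat.smul_def] at hst
        exact hst) a ha ![b, c] (by
        intro i
        fin_cases i
        · exact hb
        · exact hc) (by
        rw [Fin.sum_univ_two]
        simp only [Matrix.cons_val_zero, Matrix.cons_val_one]
        linear_combination hsum)
    exact hne ⟨hb2.1, hb2.2 0, hb2.2 1⟩

end Pool.Agent.Results.MP_363d4d_nt.AlgebraicSumConsequences
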