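import Pool.Agent.H118R4.EC.PiE

set_option autoImplicit false

namespace Pool.Agent.Results.MP_363d4d_nt.FactorialCriterion

/-- The signed distance from `x` to the nearest integer. -/
noncomputable def rem (x : ℝ) : ℝ := x - round x

/-- The block complexity: the number of distinct blocks of `n` consecutive digits in the base `b`
expansion of the fractional part of `ξ`. -/
noncomputable def blockCount (b : ℕ) [NeZero b] (ξ : ℝ) (n : ℕ) : ℕ :=
  (Set.range fun i : ℕ => fun k : Fin n => Real.digits (Int.fract ξ) b (i + k)).ncard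

/-- `x` is like `e` in its rational approximations and digits: `|x - P/Q| ≥ C / (Q² log Q)`,
`inf Q ‖Q x‖ = 0` along arbitrarily large `Q` (unbounded partial quotients), and in every base
`liminf p(n)/n ≥ 5/4`, `limsup p(n)/n ≥ 3/2` for the block complexity `p`. -/
def LikeE (x : ℝ) : Prop :=
  (∃ C : ℝ, 0 < C ∧ ∀ Q : ℕ, 2 ≤ Q → ∀ P : ℤ, C ≤ Q * Real.log Q * |Q * x - P|) ∧
  (∀ ε : ℝ, 0 < ε → ∃ᶠ Q : ℕ in Filter.atTop, Q * |rem (Q * x)| ≤ ε) ∧
  (∀ (b : ℕ) [NeZero b], 2 ≤ b →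
    (∀ c : ℝ, c < 5 / 4 → ∀ᶠ n : ℕ in Filter.atTop, c * n < blockCount b x n) ∧
    (∀ c : ℝ, c < 3 / 2 → ∃ᶠ n : ℕ in Filter.atTop, c * n < blockCount b x n))

theorem likeE {x : ℝ} {y z : ℚ} (hz : z ≠ 0) (hx : x = y + z * Real.exp 1) : LikeE x := by
  obtain ⟨a, b, c, hb, hc, h⟩ := Pool.Agent.H118R4.EC.rel_of_rat hz hx
  have hE := Pool.Agent.H118R4.EC.exp2_of_rel hb hc h
  exact ⟨Pool.Agent.H118R4.EC.log_of_rel hb hc h,
    fun ε hε => Pool.Agent.H118R4.EC.good_of_rel hc h hε,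
    fun b _ hb2 => ⟨fun c hc2 => Pool.Agent.H43R2.Cplx.liminf_of_exp2 hE b hb2 hc2,
      fun c hc2 => Pool.Agent.H43R2.Cplx.limsup_of_exp2 hE b hb2 hc2⟩⟩

/-- Write `d_m(n) = m n! π - (nearest integer)`.
(1) `π + e` is irrational if and only if `limsup |n d_m(n) + m| ≥ 1` for every `m ≥ 1`.
(2) `π - e` is irrational if and only if `limsup |n d_m(n) - m| ≥ 1` for every `m ≥ 1`.
(3) For `σ = ±1`: if `π + σ e` is rational, then `n d_m(n) → - σ m` for some `m ≥ 1`, and every
number `u + v π + w e` with `u, v, w` rational and `w ≠ σ v` (for instance `π` and `π - σ e`)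
is like `e`. -/
theorem result :
    (Irrational (Real.pi + Real.exp 1) ↔ ∀ m : ℕ, 1 ≤ m → ∀ κ : ℝ, κ < 1 →
      ∃ᶠ n : ℕ in Filter.atTop, κ < |n * rem (m * n.factorial * Real.pi) + m|) ∧
    (Irrational (Real.pi - Real.exp 1) ↔ ∀ m : ℕ, 1 ≤ m → ∀ κ : ℝ, κ < 1 →
      ∃ᶠ n : ℕ in Filter.atTop, κ < |n * rem (m * n.factorial * Real.pi) - m|) ∧
    (∀ σ : ℤ, σ = 1 ∨ σ = -1 → Irrational (Real.pi + σ * Real.exp 1) ∨
      ((∃ m : ℕ, 1 ≤ m ∧ Filter.Tendsto (fun n : ℕ => (n : ℝ) * rem (m * n.factorial * Real.pi))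
          Filter.atTop (nhds (-(σ * m)))) ∧
        (∀ u v w : ℚ, w ≠ σ * v → LikeE (u + v * Real.pi + w * Real.exp 1)))) := by
  refine ⟨?_, ?_, ?_⟩
  · have h := Pool.Agent.H118R4.EC.irr_iff (-1)
    simp only [Int.reduceNeg, Int.cast_neg, Int.cast_one, neg_one_mul, sub_neg_eq_add,
      mul_neg, mul_one] at h
    exact h
  · have h := Pool.Agent.H118R4.EC.irr_iff 1
    simp only [Int.cast_one, one_mul, mul_one] at h
    exact h
  · intro σ hσ
    by_cases hI : Irrational (Real.pi + σ * Real.exp 1)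
    · exact Or.inl hI
    · right
      obtain ⟨r, hr⟩ : ∃ r : ℚ, (r : ℝ) = Real.pi + σ * Real.exp 1 := by
        by_contra hcon
        exact hI hcon
      refine ⟨?_, ?_⟩
      · have hdr : (r : ℝ) * r.den = r.num := by
          have := Rat.mul_den_eq_num r
          exact_mod_cast this
        have h1 : ((r.den : ℕ) : ℝ) * Real.pi =
            (r.num : ℤ) + ((-(σ * r.den) : ℤ) : ℝ) * Real.exp 1 := by
          push_cast
          linear_combination hdr - (r.den : ℝ) * hr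
        have h2 := Pool.Agent.H118R4.EC.tendsto_of_rat h1
        push_cast at h2
        exact ⟨r.den, r.den_pos, h2⟩
      · intro u v w hw
        refine likeE (y := u + v * r) (z := w - σ * v) (sub_ne_zero.mpr hw) ?_
        push_cast
        linear_combination (-(v : ℝ)) * hr

end Pool.Agent.Results.MP_363d4d_nt.FactorialCriterion
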